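import Pool.Agent.N983.RT.Stm

set_option autoImplicit false

namespace Pool.Agent.U671.RT

open MeasureTheory ProbabilityTheory Pool.Agent.N983.RT

lemma ne_of_card_three {α : Type} [DecidableEq α] {a b c : α} (h : ({a, b, c} : Finset α).card = 3) :
    a ≠ b ∧ a ≠ c ∧ b ≠ c := by
  refine ⟨?_, ?_, ?_⟩
  · rintro rfl
    have h2 : ({a, a, c} : Finset α) = {a, c} := by simp
    rw [h2] at h
    have := Finset.card_le_two (a := a) (b := c)
    omega
  · rintro rfl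
    have h2 : ({a, b, a} : Finset α) = {a, b} := by ext; simp; tauto
    rw [h2] at h
    have := Finset.card_le_two (a := a) (b := b)
    omega
  · rintro rfl
    have h2 : ({a, b, b} : Finset α) = {a, b} := by simp
    rw [h2] at h
    have := Finset.card_le_two (a := a) (b := b)
    omega

/-- (TAIL) the distribution of the number of the `m` -/
theorem t_TAIL : S_TAIL := by
  classical
  intro hIND hESY Ω _ μ _ Y hY hind ρ hρ hμ R p q hpq hp hq s
  set G : Finset (Finset Wv) := ((cub R).powersetCard s).filter fun T =>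
    (∀ m ∈ T, (cls p q m).card = 3) ∧
    (∀ m ∈ T, ∀ m' ∈ T, m ≠ m' → Disjoint (cls p q m) (cls p q m')) ∧
    ∀ m ∈ T, m ≠ 0 ∧ p - m ≠ 0 ∧ q - m ≠ 0 with hG
  have hsub : {ω | 19 * s + 3 ≤ cnt (kept Y ω) R p q} ⊆
      ⋃ T ∈ G, ⋂ c ∈ T.biUnion (cls p q), (Y c) ⁻¹' {1} := by
    intro ω hω
    simp only [Set.mem_setOf_eq, cnt] at hω
    obtain ⟨T, hT, hTs, hT3, hTd⟩ := hIND _ p q hpq hp hq s hω
    simp only [Set.mem_iUnion]
    refine ⟨T, ?_, ?_⟩
    · rw [hG, Finset.mem_filter, Finset.mem_powersetCard]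
      refine ⟨⟨fun m hm => (Finset.mem_filter.1 (hT hm)).1, hTs⟩, hT3, hTd, fun m hm => ?_⟩
      have h := (Finset.mem_filter.1 (hT hm)).2
      exact ⟨h.1.1, h.2.1.1, h.2.2.1⟩
    · simp only [Set.mem_iInter, Set.mem_preimage, Set.mem_singleton_iff]
      intro c hc
      obtain ⟨m, hm, hcm⟩ := Finset.mem_biUnion.1 hc
      have h := (Finset.mem_filter.1 (hT hm)).2
      simp only [cls, Finset.mem_insert, Finset.mem_singleton] at hcm
      rcases hcm with rfl | rfl | rfl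
      · exact h.1.2
      · exact h.2.1.2
      · exact h.2.2.2
  have hE : ∀ T ∈ G, μ (⋂ c ∈ T.biUnion (cls p q), (Y c) ⁻¹' {1}) ≤
      ENNReal.ofReal (∏ m ∈ T, (ρ m * ρ (p - m) * ρ (q - m))) := by
    intro T hT
    rw [hG, Finset.mem_filter] at hT
    obtain ⟨-, hT3, hTd, hT0⟩ := hT
    rw [hind.measure_inter_preimage_eq_mul (T.biUnion (cls p q)) (sets := fun _ => {1})
      (fun c _ => MeasurableSet.singleton 1), Finset.prod_biUnion (fun m hm m' hm' h => hTd m hm m' hm' h),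
      ENNReal.ofReal_prod_of_nonneg (fun m _ => mul_nonneg (mul_nonneg (hρ _) (hρ _)) (hρ _))]
    refine Finset.prod_le_prod' fun m hm => ?_
    have h3 := hT3 m hm
    obtain ⟨h1, h2, h4⟩ := hT0 m hm
    have hne : s(m, -m) ≠ s(p - m, -(p - m)) ∧ s(m, -m) ≠ s(q - m, -(q - m)) ∧
        s(p - m, -(p - m)) ≠ s(q - m, -(q - m)) := by
      exact ne_of_card_three h3
    unfold cls
    rw [Finset.prod_insert (by rw [Finset.mem_insert, Finset.mem_singleton, not_or]; exact ⟨hne.1, hne.2.1⟩),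
      Finset.prod_insert (by rw [Finset.mem_singleton]; exact hne.2.2),
      Finset.prod_singleton, ENNReal.ofReal_mul (mul_nonneg (hρ _) (hρ _)), ENNReal.ofReal_mul (hρ _),
      mul_assoc]
    exact mul_le_mul' (hμ m h1) (mul_le_mul' (hμ _ h2) (hμ _ h4))
  calc μ {ω | 19 * s + 3 ≤ cnt (kept Y ω) R p q}
      ≤ μ (⋃ T ∈ G, ⋂ c ∈ T.biUnion (cls p q), (Y c) ⁻¹' {1}) := measure_mono hsub
    _ ≤ ∑ T ∈ G, μ (⋂ c ∈ T.biUnion (cls p q), (Y c) ⁻¹' {1}) := measure_biUnion_finset_le _ _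
    _ ≤ ∑ T ∈ G, ENNReal.ofReal (∏ m ∈ T, (ρ m * ρ (p - m) * ρ (q - m))) := Finset.sum_le_sum hE
    _ ≤ ∑ T ∈ (cub R).powersetCard s, ENNReal.ofReal (∏ m ∈ T, (ρ m * ρ (p - m) * ρ (q - m))) :=
        Finset.sum_le_sum_of_subset (Finset.filter_subset _ _)
    _ = ENNReal.ofReal (∑ T ∈ (cub R).powersetCard s, ∏ m ∈ T, (ρ m * ρ (p - m) * ρ (q - m))) := by
        rw [ENNReal.ofReal_sum_of_nonneg]
        exact fun T _ => Finset.prod_nonneg fun m _ => mul_nonneg (mul_nonneg (hρ _) (hρ _)) (hρ _)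
    _ ≤ _ := ENNReal.ofReal_le_ofReal
        (hESY (cub R) _ (fun m => mul_nonneg (mul_nonneg (hρ _) (hρ _)) (hρ _)) s)

end Pool.Agent.U671.RT
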